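import Pool.Agent.TH26.MT.Crit

/-!
# Cuts from the exchange of the order of concentrated pieces
-/

open CategoryTheory Limits Triangulated Pretriangulated ObjectProperty

universe v₁ v₂ u₁ u₂ w

namespace Pool.Agent.TH26.MT

open Pool.Agent.TH133.TT

set_option linter.all false

variable {T : Type u₁} [Category.{v₁} T] [Preadditive T] [HasZeroObject T] [HasShift T ℤ]
  [∀ n : ℤ, (shiftFunctor T n).Additive] [Pretriangulated T]

section gen

variable {P Q : ObjectProperty T}

lemma IterExt.mono (h : P ≤ Q) {X : T} (hX : IterExt P X) : IterExt Q X := by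
  induction hX with
  | zero h0 => exact .zero h0
  | of h1 => exact .of (h _ h1)
  | ext hT _ _ h1 h2 => exact .ext hT h1 h2

lemma IterExt.bind (h : ∀ X, P X → IterExt Q X) {X : T} (hX : IterExt P X) : IterExt Q X := by
  induction hX with
  | zero h0 => exact .zero h0
  | of h1 => exact h _ h1
  | ext hT _ _ h1 h2 => exact .ext hT h1 h2

lemma IterExt.shift (hP : ∀ (X : T) (n : ℤ), P X → P (X⟦n⟧)) {X : T} (hX : IterExt P X) (n : ℤ) :
    IterExt P (X⟦n⟧) := by
  induction hX with
  | zero h0 => exact .zero ((shiftFunctor T n).map_isZero h0)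
  | of h1 => exact .of (hP _ n h1)
  | ext hT _ _ h1 h2 => exact .ext (Triangle.shift_distinguished _ hT n) h1 h2

lemma ep_iterExt : extensionProduct (IterExt P) (IterExt P) ≤ IterExt P := by
  rintro X ⟨A, B, f, g, k, hT, hA, hB⟩
  exact .ext hT hA hB

lemma IterExt.iso {X Y : T} (hX : IterExt P X) (e : X ≅ Y) : IterExt P Y := by
  have h : extensionProduct (IterExt P) (IterExt P) X := ep_zero_right hX fun Y hY => .zero hY
  exact ep_iterExt _ ((extensionProduct (IterExt P) (IterExt P)).prop_of_iso e h)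

/-- Exchange with a class that contains the zero objects. -/
lemma exch_left [IsTriangulated T] {C : ObjectProperty T} (hC : ∀ Y : T, IsZero Y → C Y)
    (hiso : C.IsClosedUnderIsomorphisms)
    (h : extensionProduct C P ≤ extensionProduct (IterExt P) C) {y : T} (hy : IterExt P y) :
    extensionProduct C (· = y) ≤ extensionProduct (IterExt P) C := by
  induction hy with
  | @zero y h0 =>
    rintro E ⟨A, B, f, g, k, hT, hA, rfl⟩
    haveI : IsIso f := iso1 hT h0
    exact ep_zero_left (C.prop_of_iso (asIso f) hA) fun Y hY => .zero hY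
  | @of y hy =>
    rintro E ⟨A, B, f, g, k, hT, hA, rfl⟩
    exact h _ ⟨_, _, _, _, _, hT, hA, hy⟩
  | @ext y1 y y2 f1 g1 k1 hT1 _ _ h1 h2 =>
    rintro E ⟨A, B, f, g, k, hT, hA, rfl⟩
    have e1 : extensionProduct C (extensionProduct (· = y1) (· = y2)) E :=
      ⟨_, _, _, _, _, hT, hA, ⟨_, _, _, _, _, hT1, rfl, rfl⟩⟩
    rw [← extensionProduct_assoc] at e1
    have e2 := monotone_extensionProduct_left _ h1 _ e1
    rw [extensionProduct_assoc] at e2
    have e3 := monotone_extensionProduct_right _ h2 _ e2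
    rw [← extensionProduct_assoc] at e3
    exact monotone_extensionProduct_left _ ep_iterExt _ e3

lemma exch_all [IsTriangulated T] {ι' : Sort*} {C : ι' → ObjectProperty T}
    (hC : ∀ j, ∀ Y : T, IsZero Y → C j Y) (hiso : ∀ j, (C j).IsClosedUnderIsomorphisms)
    (h : ∀ j, extensionProduct (C j) P ≤ extensionProduct (IterExt P) (C j)) {x : T}
    (hx : IterExt (fun Y => ∃ j, C j Y) x) :
    extensionProduct (· = x) (IterExt P) ≤
      extensionProduct (IterExt P) (IterExt (fun Y => ∃ j, C j Y)) := by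
  induction hx with
  | @zero x h0 =>
    rintro E ⟨A, B, f, g, k, hT, rfl, hB⟩
    haveI : IsIso g := iso2 hT h0
    exact ep_zero_right (hB.iso (asIso g).symm) fun Y hY => .zero hY
  | @of x hx =>
    obtain ⟨j, hj⟩ := hx
    rintro E ⟨A, B, f, g, k, hT, rfl, hB⟩
    have e1 := exch_left (hC j) (hiso j) (h j) hB E ⟨_, _, _, _, _, hT, hj, rfl⟩
    exact monotone_extensionProduct_right _ (fun Y hY => .of ⟨j, hY⟩) _ e1
  | @ext x1 x x2 f1 g1 k1 hT1 _ _ h1 h2 =>
    rintro E ⟨A, B, f, g, k, hT, rfl, hB⟩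
    have e1 : extensionProduct (extensionProduct (· = x1) (· = x2)) (IterExt P) E :=
      ⟨_, _, _, _, _, hT, ⟨_, _, _, _, _, hT1, rfl, rfl⟩, hB⟩
    rw [extensionProduct_assoc] at e1
    have e2 := monotone_extensionProduct_right _ h2 _ e1
    rw [← extensionProduct_assoc] at e2
    have e3 := monotone_extensionProduct_left _ h1 _ e2
    rw [extensionProduct_assoc] at e3
    exact monotone_extensionProduct_right _ ep_iterExt _ e3

end gen

variable {ι : Type w} {D : ι → Type u₂} [∀ i, Category.{v₂} (D i)] [∀ i, Preadditive (D i)]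
  [∀ i, HasZeroObject (D i)] [∀ i, HasShift (D i) ℤ]
  [∀ i, ∀ n : ℤ, (shiftFunctor (D i) n).Additive] [∀ i, Pretriangulated (D i)]
  {R : ∀ i, T ⥤ D i} {s : ∀ i, TStructure (D i)} [∀ i, (R i).CommShift ℤ]
  [∀ i, (R i).IsTriangulated] [IsTriangulated T]

lemma iterExt_le {P : ObjectProperty T} {m : ℤ} (h : ∀ Y, P Y → Le R s m Y) {X : T}
    (hX : IterExt P X) : Le R s m X := by
  induction hX with
  | zero h0 => exact Le.of_isZero h0
  | of h1 => exact h _ h1
  | ext hT _ _ i1 i2 => exact Le.ext hT i1 i2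

lemma iterExt_ge {P : ObjectProperty T} {m : ℤ} (h : ∀ Y, P Y → Ge R s m Y) {X : T}
    (hX : IterExt P X) : Ge R s m X := by
  induction hX with
  | zero h0 => exact Ge.of_isZero h0
  | of h1 => exact h _ h1
  | ext hT _ _ i1 i2 => exact Ge.ext hT i1 i2

theorem cut_of_exchange (hx : Exchange R s) (m : ℤ) {X : T}
    (hX : IterExt (fun Y => ∃ n, Conc R s n Y) X) : CutAt R s m X := by
  let P : ObjectProperty T := fun Y => ∃ b : ℤ, b ≤ m ∧ Conc R s b Y
  let Q : ObjectProperty T := fun Y => ∃ a : {a : ℤ // m < a}, Conc R s (a : ℤ) Y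
  have hswap : ∀ a : {a : ℤ // m < a}, extensionProduct (Conc R s (a : ℤ)) P ≤
      extensionProduct (IterExt P) (Conc R s (a : ℤ)) := by
    rintro ⟨a, ha⟩ E ⟨A, B, f, g, k, hT, hA, b, hb, hB⟩
    obtain ⟨A', B', f', g', k', hT', hB', hA'⟩ := hx a b (by omega) A E B f g k hT hA hB
    exact ⟨_, _, _, _, _, hT', .of ⟨b, hb, hB'⟩, hA'⟩
  have h1 : extensionProduct (IterExt Q) (IterExt P) ≤
      extensionProduct (IterExt P) (IterExt Q) := by
    rintro E ⟨A, B, f, g, k, hT, hA, hB⟩
    exact exch_all (C := fun a : {a : ℤ // m < a} => Conc R s (a : ℤ))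
      (fun _ _ => Conc.of_isZero) (fun _ => ⟨fun e h => Conc.iso h e⟩) hswap hA E
      ⟨_, _, _, _, _, hT, rfl, hB⟩
  have h2 : extensionProduct (IterExt P) (IterExt Q) X := by
    induction hX with
    | @zero X h0 => exact ep_zero_left (.zero h0) fun Y hY => .zero hY
    | @of X h =>
      obtain ⟨n, hn⟩ := h
      rcases le_or_gt n m with hnm | hnm
      · exact ep_zero_right (.of ⟨n, hnm, hn⟩) fun Y hY => .zero hY
      · exact ep_zero_left (.of ⟨⟨n, hnm⟩, hn⟩) fun Y hY => .zero hY
    | @ext X1 X X2 f g k hT _ _ i1 i2 =>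
      have e1 : extensionProduct (extensionProduct (IterExt P) (IterExt Q))
          (extensionProduct (IterExt P) (IterExt Q)) X := ⟨_, _, _, _, _, hT, i1, i2⟩
      rw [extensionProduct_assoc, ← extensionProduct_assoc (IterExt Q)] at e1
      have e2 := monotone_extensionProduct_right _ (monotone_extensionProduct_left _ h1) _ e1
      rw [extensionProduct_assoc, ← extensionProduct_assoc (IterExt P)] at e2
      exact (monotone_extensionProduct_left _ ep_iterExt).trans
        (monotone_extensionProduct_right _ ep_iterExt) _ e2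
  obtain ⟨A, B, f, g, k, hT, hA, hB⟩ := h2
  refine ⟨A, B, f, g, k, hT, iterExt_le ?_ hA, iterExt_ge ?_ hB⟩
  · rintro Y ⟨b, hb, h⟩
    exact Le.mono h.1 hb
  · rintro Y ⟨⟨a, ha⟩, h⟩
    exact Ge.anti h.2 (by show m + 1 ≤ a; omega)

end Pool.Agent.TH26.MT
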