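import Pool.Agent.TH26.MT.Retract

/-!
# Specialisation of triangles
-/

open CategoryTheory Limits Triangulated Pretriangulated ObjectProperty

universe v₁ v₂ v₃ u₁ u₂ u₃ w

namespace Pool.Agent.TH26.MT

open Pool.Agent.TH133.TT

set_option linter.all false

variable {T' : Type u₁} [Category.{v₁} T'] [Preadditive T'] [HasZeroObject T'] [HasShift T' ℤ]
  [∀ n : ℤ, (shiftFunctor T' n).Additive] [Pretriangulated T']
  {S : Type u₃} [Category.{v₃} S] [Preadditive S] [HasZeroObject S] [HasShift S ℤ]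
  [∀ n : ℤ, (shiftFunctor S n).Additive] [Pretriangulated S]
  {ι : Type w} {D' : ι → Type u₂} [∀ i, Category.{v₂} (D' i)] [∀ i, Preadditive (D' i)]
  [∀ i, HasZeroObject (D' i)] [∀ i, HasShift (D' i) ℤ]
  [∀ i, ∀ n : ℤ, (shiftFunctor (D' i) n).Additive] [∀ i, Pretriangulated (D' i)]

/-- Every triangle `A → F X → B → A[1]` of `T'` specialises: there are an object `N` of `S` with `X`
as a direct summand and a triangle `A₀ → N → B₀ → A₀[1]` of `S` such that the degrees of the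
realisations of `A₀` are not above those of `A`, and the degrees of the realisations of `B₀` are not
below those of `B`. -/
def Specialises (F : S ⥤ T') (R' : ∀ i, T' ⥤ D' i) (s' : ∀ i, TStructure (D' i)) : Prop :=
  ∀ (X : S) (A B : T') (f : A ⟶ F.obj X) (g : F.obj X ⟶ B) (h : B ⟶ A⟦(1 : ℤ)⟧),
    Triangle.mk f g h ∈ distTriang T' →
    ∃ (N A₀ B₀ : S) (i : X ⟶ N) (r : N ⟶ X) (f₀ : A₀ ⟶ N) (g₀ : N ⟶ B₀)
      (h₀ : B₀ ⟶ A₀⟦(1 : ℤ)⟧), i ≫ r = 𝟙 X ∧ Triangle.mk f₀ g₀ h₀ ∈ distTriang S ∧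
      ∀ n : ℤ, (Le R' s' n A → Le R' s' n (F.obj A₀)) ∧ (Ge R' s' n B → Ge R' s' n (F.obj B₀))

variable {R' : ∀ i, T' ⥤ D' i} {s' : ∀ i, TStructure (D' i)} [∀ i, (R' i).CommShift ℤ]
  [∀ i, (R' i).IsTriangulated] {F : S ⥤ T'} [F.CommShift ℤ] [F.IsTriangulated]

lemma isZero_of_faithful [F.Faithful] {X : S} (h : IsZero (F.obj X)) : IsZero X := by
  rw [IsZero.iff_id_eq_zero]
  apply F.map_injective
  exact h.eq_of_src _ _

/-- Descent of cuts. -/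
theorem cut_descends [IsIdempotentComplete S] [F.Faithful] (hsp : Specialises F R' s')
    (t' : TStructure T') (hle : ∀ (n : ℤ) (X : T'), t'.le n X ↔ Le R' s' n X)
    (hge : ∀ (n : ℤ) (X : T'), t'.ge n X ↔ Ge R' s' n X) (X : S) :
    ∃ (A B : S) (f : A ⟶ X) (g : X ⟶ B) (h : B ⟶ A⟦(1 : ℤ)⟧), Triangle.mk f g h ∈ distTriang S ∧
      Le R' s' 0 (F.obj A) ∧ Ge R' s' 1 (F.obj B) := by
  obtain ⟨A, B, hA, hB, f, g, h, hT⟩ := t'.exists_triangle (F.obj X) 0 1 rfl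
  obtain ⟨N, A₀, B₀, i, r, f₀, g₀, h₀, hir, hT₀, hdeg⟩ := hsp X A B f g h hT
  have hcut : CutAt (fun j => F ⋙ R' j) s' 0 N :=
    ⟨A₀, B₀, f₀, g₀, h₀, hT₀, (hdeg 0).1 ((hle _ _).1 hA), by
      rw [zero_add]
      exact (hdeg 1).2 ((hge _ _).1 hB)⟩
  have hv : ∀ (X Y : S) (f : X ⟶ Y), Le (fun j => F ⋙ R' j) s' 0 X →
      Ge (fun j => F ⋙ R' j) s' 1 Y → f = 0 := by
    intro X Y f hX hY
    apply F.map_injective
    rw [F.map_zero]
    exact hom_zero t' (F.map f) (m := 0) (n := 1) (by norm_num) ((hle _ _).2 hX) ((hge _ _).2 hY)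
  obtain ⟨A1, B1, f1, g1, h1, hT1, hA1, hB1⟩ := cut_of_retract hv i r hir hcut
  rw [zero_add] at hB1
  exact ⟨A1, B1, f1, g1, h1, hT1, hA1, hB1⟩

end Pool.Agent.TH26.MT
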