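import Pool.Agent.TH26.MT.Cut

/-!
# Equivalent conditions for the existence of cuts
-/

open CategoryTheory Limits Triangulated Pretriangulated ObjectProperty

universe v₁ v₂ u₁ u₂ w

namespace Pool.Agent.TH26.MT

open Pool.Agent.TH133.TT

set_option linter.all false

variable {T : Type u₁} [Category.{v₁} T] [Preadditive T] [HasZeroObject T] [HasShift T ℤ]
  [∀ n : ℤ, (shiftFunctor T n).Additive] [Pretriangulated T]
  {ι : Type w} {D : ι → Type u₂} [∀ i, Category.{v₂} (D i)] [∀ i, Preadditive (D i)]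
  [∀ i, HasZeroObject (D i)] [∀ i, HasShift (D i) ℤ]
  [∀ i, ∀ n : ℤ, (shiftFunctor (D i) n).Additive] [∀ i, Pretriangulated (D i)]
  {R : ∀ i, T ⥤ D i} {s : ∀ i, TStructure (D i)} [∀ i, (R i).CommShift ℤ]
  [∀ i, (R i).IsTriangulated]

lemma ep_zero_right {P Q : ObjectProperty T} {X : T} (hX : P X) (hQ : ∀ Y : T, IsZero Y → Q Y) :
    extensionProduct P Q X :=
  ⟨_, _, _, _, _, contractible_distinguished X, hX, hQ _ (isZero_zero T)⟩

lemma ep_zero_left {P Q : ObjectProperty T} {X : T} (hX : Q X) (hP : ∀ Y : T, IsZero Y → P Y) :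
    extensionProduct P Q X :=
  ⟨_, _, _, _, _, inv_rot_of_distTriang _ (contractible_distinguished X),
    hP _ ((shiftFunctor T (-1 : ℤ)).map_isZero (isZero_zero T)), hX⟩

lemma ep_le {m n : ℤ} (h : m ≤ n) : extensionProduct (Le R s m) (Le R s n) ≤ Le R s n := by
  rintro X ⟨A, B, f, g, k, hT, hA, hB⟩
  exact Le.ext hT (Le.mono hA h) hB

lemma ep_ge {m n : ℤ} (h : m ≤ n) : extensionProduct (Ge R s m) (Ge R s n) ≤ Ge R s m := by
  rintro X ⟨A, B, f, g, k, hT, hA, hB⟩
  exact Ge.ext hT hA (Ge.anti hB h)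

lemma cut_of_le {n : ℤ} {X : T} (h : Le R s n X) : CutAt R s n X :=
  ep_zero_right h fun _ => Ge.of_isZero

lemma cut_of_ge {n : ℤ} {X : T} (h : Ge R s (n + 1) X) : CutAt R s n X :=
  ep_zero_left h fun _ => Le.of_isZero

variable [IsTriangulated T]

/-- The outer parts of a cut. -/
lemma cut_bounds (hc : JointlyConservative R) {X A B : T} {f : A ⟶ X} {g : X ⟶ B}
    {h : B ⟶ A⟦(1 : ℤ)⟧} (hT : Triangle.mk f g h ∈ distTriang T) {n a b : ℤ} (hA : Le R s n A)
    (hB : Ge R s (n + 1) B) (ha : Ge R s a X) (hb : Le R s b X) (hA0 : ¬ IsZero A)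
    (hB0 : ¬ IsZero B) : a ≤ n ∧ n + 1 ≤ b ∧ Ge R s a A ∧ Le R s b B := by
  have h1 : Ge R s (min a (n + 2)) A :=
    Ge.first hT (Ge.anti ha (min_le_left _ _)) (Ge.anti hB (by
      have := min_le_right a (n + 2)
      omega))
  have h2 : min a (n + 2) ≤ n := by
    by_contra hcon
    exact hA0 (isZero_of_le_ge hc (by omega) hA h1)
  have h3 : Le R s (max b (n - 1)) B :=
    Le.third hT (Le.mono hb (le_max_left _ _)) (Le.mono hA (by
      have := le_max_right b (n - 1)
      omega))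
  have h4 : n + 1 ≤ max b (n - 1) := by
    by_contra hcon
    exact hB0 (isZero_of_le_ge hc (by omega) h3 hB)
  have h5 : a ≤ n := by omega
  have h6 : n + 1 ≤ b := by omega
  have e1 : min a (n + 2) = a := by omega
  have e2 : max b (n - 1) = b := by omega
  rw [e1] at h1
  rw [e2] at h3
  exact ⟨h5, h6, h1, h3⟩

lemma cut_of_splits_aux (hc : JointlyConservative R)
    (h : ∀ X : T, (∃ n, Conc R s n X) ∨ Splits R s X) (N : ℕ) :
    ∀ (a b : ℤ) (X : T), (b - a).toNat ≤ N → Ge R s a X → Le R s b X → ∀ m, CutAt R s m X := by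
  induction N using Nat.strong_induction_on with
  | _ N ih =>
    intro a b X hN ha hb m
    rcases h X with ⟨n, hn⟩ | ⟨n, A, B, f, g, k, hT, hA, hB, hA0, hB0⟩
    · rcases le_or_gt n m with h1 | h1
      · exact cut_of_le (Le.mono hn.1 h1)
      · exact cut_of_ge (Ge.anti hn.2 (by omega))
    · obtain ⟨h1, h2, h3, h4⟩ := cut_bounds hc hT hA hB ha hb hA0 hB0
      rcases lt_trichotomy m n with hm | hm | hm
      · have hcA : CutAt R s m A := ih (n - a).toNat (by omega) a n A le_rfl h3 hA m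
        have hX : extensionProduct (extensionProduct (Le R s m) (Ge R s (m + 1)))
            (Ge R s (n + 1)) X := ⟨_, _, _, _, _, hT, hcA, hB⟩
        rw [extensionProduct_assoc] at hX
        exact monotone_extensionProduct_right _ (ep_ge (by omega)) _ hX
      · subst hm
        exact ⟨_, _, _, _, _, hT, hA, hB⟩
      · have hcB : CutAt R s m B := ih (b - (n + 1)).toNat (by omega) (n + 1) b B le_rfl hB h4 m
        have hX : extensionProduct (Le R s n) (extensionProduct (Le R s m) (Ge R s (m + 1))) X :=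
          ⟨_, _, _, _, _, hT, hA, hcB⟩
        rw [← extensionProduct_assoc] at hX
        exact monotone_extensionProduct_left _ (ep_le (by omega)) _ hX

theorem cut_of_splits (hc : JointlyConservative R)
    (hbdd : ∀ X : T, ∃ a b, Ge R s a X ∧ Le R s b X)
    (h : ∀ X : T, (∃ n, Conc R s n X) ∨ Splits R s X) (X : T) (m : ℤ) : CutAt R s m X := by
  obtain ⟨a, b, ha, hb⟩ := hbdd X
  exact cut_of_splits_aux hc h _ a b X le_rfl ha hb m

lemma splits_of_cut_aux (h : ∀ (X : T) (m : ℤ), CutAt R s m X) (N : ℕ) :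
    ∀ (a : ℤ) (X : T), Ge R s a X → Le R s (a + N) X → (∃ n, Conc R s n X) ∨ Splits R s X := by
  induction N with
  | zero =>
    intro a X ha hb
    exact Or.inl ⟨a, by simpa using hb, ha⟩
  | succ N ih =>
    intro a X ha hb
    obtain ⟨A, B, f, g, k, hT, hA, hB⟩ := h X a
    have hA' : Ge R s a A := Ge.first hT ha (Ge.anti hB (by omega))
    by_cases hA0 : IsZero A
    · haveI : IsIso g := iso2 hT hA0
      refine ih (a + 1) X (Ge.iso hB (asIso g).symm) (Le.mono hb ?_)
      push_cast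
      omega
    by_cases hB0 : IsZero B
    · haveI : IsIso f := iso1 hT hB0
      exact Or.inl ⟨a, Conc.iso ⟨hA, hA'⟩ (asIso f)⟩
    exact Or.inr ⟨a, A, B, f, g, k, hT, hA, hB, hA0, hB0⟩

theorem splits_of_cut (hbdd : ∀ X : T, ∃ a b, Ge R s a X ∧ Le R s b X)
    (h : ∀ (X : T) (m : ℤ), CutAt R s m X) (X : T) : (∃ n, Conc R s n X) ∨ Splits R s X := by
  obtain ⟨a, b, ha, hb⟩ := hbdd X
  exact splits_of_cut_aux h (b - a).toNat a X ha (Le.mono hb (by omega))

lemma iterExt_of_cut_aux (h : ∀ (X : T) (m : ℤ), CutAt R s m X) (N : ℕ) :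
    ∀ (a : ℤ) (X : T), Ge R s a X → Le R s (a + N) X →
      IterExt (fun Y => ∃ n, Conc R s n Y) X := by
  induction N with
  | zero =>
    intro a X ha hb
    exact .of ⟨a, by simpa using hb, ha⟩
  | succ N ih =>
    intro a X ha hb
    obtain ⟨A, B, f, g, k, hT, hA, hB⟩ := h X a
    have hA' : Ge R s a A := Ge.first hT ha (Ge.anti hB (by omega))
    have hB' : Le R s (a + 1 + N) B := by
      refine Le.third hT (Le.mono hb ?_) (Le.mono hA ?_)
      · push_cast; omega
      · omega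
    exact .ext hT (.of ⟨a, hA, hA'⟩) (ih (a + 1) B hB hB')

theorem iterExt_of_cut (hbdd : ∀ X : T, ∃ a b, Ge R s a X ∧ Le R s b X)
    (h : ∀ (X : T) (m : ℤ), CutAt R s m X) (X : T) : IterExt (fun Y => ∃ n, Conc R s n Y) X := by
  obtain ⟨a, b, ha, hb⟩ := hbdd X
  exact iterExt_of_cut_aux h (b - a).toNat a X ha (Le.mono hb (by omega))

theorem exchange_of_cut (hc : JointlyConservative R)
    (hcut : ∀ (X : T) (m : ℤ), CutAt R s m X) : Exchange R s := by
  intro a b hab A E B f g h hT hA hB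
  obtain ⟨E', E'', u, v, w', hT', hE', hE''⟩ := hcut E (a - 1)
  have hEle : Le R s a E := Le.ext hT hA.1 (Le.mono hB.1 hab.le)
  have hEge : Ge R s b E := Ge.ext hT (Ge.anti hA.2 hab.le) hB.2
  have hE''ge : Ge R s a E'' := by simpa using hE''
  have hE''le : Le R s a E'' := Le.third hT' hEle (Le.mono hE' (by omega))
  have hE'ge : Ge R s b E' := Ge.first hT' hEge (Ge.anti hE''ge (by omega))
  have hE'le : Le R s b E' := by
    rcases eq_or_ne a (b + 1) with e | e
    · subst e
      simpa using hE'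
    · obtain ⟨F, d, e', hT''⟩ := distinguished_cocone_triangle (u ≫ g)
      have o := someOctahedron rfl hT' (rot_of_distTriang _ hT) hT''
      have hF1 : Ge R s (a - 1) F :=
        Ge.ext o.mem (Ge.anti hE''ge (by omega)) (hA.2.shift (by omega))
      have hF2 : Le R s (a - 2) F :=
        Le.third hT'' (Le.mono hB.1 (by omega)) (Le.mono hE' (by omega))
      have hF : IsZero F := isZero_of_le_ge hc (by omega) hF2 hF1
      haveI : IsIso (u ≫ g) := iso1 hT'' hF
      exact Le.iso hB.1 (asIso (u ≫ g)).symm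
  exact ⟨E'', E', u, v, w', hT', ⟨hE'le, hE'ge⟩, ⟨hE''le, hE''ge⟩⟩

end Pool.Agent.TH26.MT
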