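import Pool.Agent.TH26.MT.Defs

/-!
# t-structures from cuts
-/

open CategoryTheory Limits Triangulated Pretriangulated ObjectProperty

universe v₁ v₂ u₁ u₂ w

namespace Pool.Agent.TH26.MT

open Pool.Agent.TH133.TT

set_option linter.all false

variable {T : Type u₁} [Category.{v₁} T] [Preadditive T] [HasZeroObject T] [HasShift T ℤ]
  [∀ n : ℤ, (shiftFunctor T n).Additive] [Pretriangulated T]

lemma le_isZero (t : TStructure T) {X : T} (h : IsZero X) (n : ℤ) : t.le n X :=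
  le_of_hom t fun _ _ _ => h.eq_of_src _ _

lemma ge_isZero (t : TStructure T) {X : T} (h : IsZero X) (n : ℤ) : t.ge n X :=
  ge_of_hom t fun _ _ _ => h.eq_of_tgt _ _

section real

variable {ι : Type w} {D : ι → Type u₂} [∀ i, Category.{v₂} (D i)] [∀ i, Preadditive (D i)]
  [∀ i, HasZeroObject (D i)] [∀ i, HasShift (D i) ℤ]
  [∀ i, ∀ n : ℤ, (shiftFunctor (D i) n).Additive] [∀ i, Pretriangulated (D i)]
  {R : ∀ i, T ⥤ D i} {s : ∀ i, TStructure (D i)}

lemma Le.iso {n : ℤ} {X Y : T} (h : Le R s n X) (e : X ≅ Y) : Le R s n Y :=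
  fun i => le_of_iso (s i) ((R i).mapIso e) (h i)

lemma Ge.iso {n : ℤ} {X Y : T} (h : Ge R s n X) (e : X ≅ Y) : Ge R s n Y :=
  fun i => ge_of_iso (s i) ((R i).mapIso e) (h i)

lemma Le.mono {m n : ℤ} {X : T} (h : Le R s m X) (hmn : m ≤ n) : Le R s n X :=
  fun i => le_mono (s i) hmn (h i)

lemma Ge.anti {m n : ℤ} {X : T} (h : Ge R s n X) (hmn : m ≤ n) : Ge R s m X :=
  fun i => ge_anti (s i) hmn (h i)

lemma Conc.iso {n : ℤ} {X Y : T} (h : Conc R s n X) (e : X ≅ Y) : Conc R s n Y :=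
  ⟨h.1.iso e, h.2.iso e⟩

instance (n : ℤ) : (Le R s n).IsClosedUnderIsomorphisms := ⟨fun e h => Le.iso h e⟩

instance (n : ℤ) : (Ge R s n).IsClosedUnderIsomorphisms := ⟨fun e h => Ge.iso h e⟩

variable [∀ i, (R i).CommShift ℤ]

lemma Le.shift {n a n' : ℤ} {X : T} (h : Le R s n X) (e : a + n' = n) : Le R s n' (X⟦a⟧) :=
  fun i => le_of_iso (s i) (((R i).commShiftIso a).app X).symm ((s i).le_shift n a n' e _ (h i))

lemma Ge.shift {n a n' : ℤ} {X : T} (h : Ge R s n X) (e : a + n' = n) : Ge R s n' (X⟦a⟧) :=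
  fun i => ge_of_iso (s i) (((R i).commShiftIso a).app X).symm ((s i).ge_shift n a n' e _ (h i))

lemma Conc.shift {n a n' : ℤ} {X : T} (h : Conc R s n X) (e : a + n' = n) :
    Conc R s n' (X⟦a⟧) := ⟨h.1.shift e, h.2.shift e⟩

variable [∀ i, (R i).IsTriangulated]

lemma Le.of_isZero {n : ℤ} {X : T} (h : IsZero X) : Le R s n X :=
  fun i => le_isZero (s i) ((R i).map_isZero h) n

lemma Ge.of_isZero {n : ℤ} {X : T} (h : IsZero X) : Ge R s n X :=
  fun i => ge_isZero (s i) ((R i).map_isZero h) n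

lemma Conc.of_isZero {n : ℤ} {X : T} (h : IsZero X) : Conc R s n X :=
  ⟨Le.of_isZero h, Ge.of_isZero h⟩

variable {X Y Z : T} {f : X ⟶ Y} {g : Y ⟶ Z} {h : Z ⟶ X⟦(1 : ℤ)⟧}

lemma map_tri (i : ι) (hT : Triangle.mk f g h ∈ distTriang T) :
    Triangle.mk ((R i).map f) ((R i).map g) ((R i).map h ≫ ((R i).commShiftIso (1 : ℤ)).hom.app X) ∈
      distTriang (D i) := (R i).map_distinguished _ hT

lemma Le.ext (hT : Triangle.mk f g h ∈ distTriang T) {n : ℤ} (hX : Le R s n X)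
    (hZ : Le R s n Z) : Le R s n Y :=
  fun i => le_of_ext (s i) (map_tri i hT) (hX i) (hZ i)

lemma Ge.ext (hT : Triangle.mk f g h ∈ distTriang T) {n : ℤ} (hX : Ge R s n X)
    (hZ : Ge R s n Z) : Ge R s n Y :=
  fun i => ge_of_ext (s i) (map_tri i hT) (hX i) (hZ i)

lemma Le.third (hT : Triangle.mk f g h ∈ distTriang T) {n : ℤ} (hY : Le R s n Y)
    (hX : Le R s (n + 1) X) : Le R s n Z :=
  fun i => le_third (s i) (map_tri i hT) (hY i) (hX i)

lemma Ge.third (hT : Triangle.mk f g h ∈ distTriang T) {n : ℤ} (hY : Ge R s n Y)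
    (hX : Ge R s (n + 1) X) : Ge R s n Z :=
  fun i => ge_third (s i) (map_tri i hT) (hY i) (hX i)

lemma Le.first (hT : Triangle.mk f g h ∈ distTriang T) {n : ℤ} (hY : Le R s n Y)
    (hZ : Le R s (n - 1) Z) : Le R s n X :=
  fun i => le_first (s i) (map_tri i hT) (hY i) (hZ i)

lemma Ge.first (hT : Triangle.mk f g h ∈ distTriang T) {n : ℤ} (hY : Ge R s n Y)
    (hZ : Ge R s (n - 1) Z) : Ge R s n X :=
  fun i => ge_first (s i) (map_tri i hT) (hY i) (hZ i)

lemma isZero_of_le_ge (hc : JointlyConservative R) {X : T} {m n : ℤ} (hmn : m < n)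
    (h1 : Le R s m X) (h2 : Ge R s n X) : IsZero X :=
  hc X fun i => isZero_of (s i) hmn (h1 i) (h2 i)

variable (R s) in
/-- The object `X` can be cut between the degrees `n` and `n + 1`. -/
def CutAt (n : ℤ) (X : T) : Prop := extensionProduct (Le R s n) (Ge R s (n + 1)) X

/-- Maps from `T^{≤0}` to `T^{≥1}` are zero as soon as all objects can be cut. -/
theorem hom_zero_of_cut [IsTriangulated T] (hc : JointlyConservative R)
    (hcut : ∀ X : T, CutAt R s 0 X) {X Y : T} (f : X ⟶ Y) (hX : Le R s 0 X) (hY : Ge R s 1 Y) :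
    f = 0 := by
  obtain ⟨C, g, w, hT⟩ := distinguished_cocone_triangle f
  obtain ⟨A, B, a, b, c, hT', hA, hB⟩ := hcut C
  obtain ⟨F, d, e, hT''⟩ := distinguished_cocone_triangle (g ≫ b)
  have o := someOctahedron rfl (rot_of_distTriang _ hT) (rot_of_distTriang _ hT') hT''
  have hF1 : Le R s (-1) F := Le.ext o.mem (hX.shift (by norm_num)) (hA.shift (by norm_num))
  have hF2 : Ge R s 0 F :=
    Ge.third hT'' (Ge.anti hB (by norm_num)) (by simpa using hY)
  have hF : IsZero F := isZero_of_le_ge hc (by norm_num) hF1 hF2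
  haveI : IsIso (g ≫ b) := iso1 hT'' hF
  have hfg : f ≫ g = 0 := fg hT
  rw [← cancel_mono (g ≫ b), zero_comp, reassoc_of% hfg, zero_comp]

/-- The t-structure defined by the realisations. -/
def mkT [IsTriangulated T] (R : ∀ i, T ⥤ D i) (s : ∀ i, TStructure (D i))
    [∀ i, (R i).CommShift ℤ] [∀ i, (R i).IsTriangulated] (hc : JointlyConservative R)
    (hcut : ∀ X : T, CutAt R s 0 X) : TStructure T where
  le := Le R s
  ge := Ge R s
  le_shift _ _ _ h _ hX := hX.shift h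
  ge_shift _ _ _ h _ hX := hX.shift h
  zero' _ _ f hX hY := hom_zero_of_cut hc hcut f hX hY
  le_zero_le _ hX := Le.mono hX (by norm_num)
  ge_one_le _ hX := Ge.anti hX (by norm_num)
  exists_triangle_zero_one A := by
    obtain ⟨X, Y, f, g, h, hT, hX, hY⟩ := hcut A
    exact ⟨X, Y, hX, by simpa using hY, f, g, h, hT⟩

end real

end Pool.Agent.TH26.MT
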