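import Pool.Agent.TH133.TT.Basic
import Mathlib.CategoryTheory.Triangulated.Subcategory

/-!
# Cutting objects of a triangulated category along a family of realisations: definitions
-/

open CategoryTheory Limits Triangulated Pretriangulated

universe v₁ v₂ u₁ u₂ w

namespace Pool.Agent.TH26.MT

variable {T : Type u₁} [Category.{v₁} T] [Preadditive T] [HasZeroObject T] [HasShift T ℤ]
  [∀ n : ℤ, (shiftFunctor T n).Additive] [Pretriangulated T]

section real

variable {ι : Type w} {D : ι → Type u₂} [∀ i, Category.{v₂} (D i)] [∀ i, Preadditive (D i)]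
  [∀ i, HasZeroObject (D i)] [∀ i, HasShift (D i) ℤ]
  [∀ i, ∀ n : ℤ, (shiftFunctor (D i) n).Additive] [∀ i, Pretriangulated (D i)]
  (R : ∀ i, T ⥤ D i) (s : ∀ i, TStructure (D i))

/-- All realisations of the object lie in `D^{≤n}`. -/
def Le (n : ℤ) : ObjectProperty T := fun X => ∀ i, (s i).le n ((R i).obj X)

/-- All realisations of the object lie in `D^{≥n}`. -/
def Ge (n : ℤ) : ObjectProperty T := fun X => ∀ i, (s i).ge n ((R i).obj X)

/-- The object is concentrated in degree `n`: all its realisations are. -/
def Conc (n : ℤ) : ObjectProperty T := fun X => Le R s n X ∧ Ge R s n X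

/-- The family of realisations is conservative: an object all of whose realisations are zero is
zero. -/
def JointlyConservative : Prop := ∀ X : T, (∀ i, IsZero ((R i).obj X)) → IsZero X

/-- `X` is an extension of two non-zero objects that are separated by their degrees: there are an
integer `n` and a triangle `A → X → B → A[1]` with `A ≠ 0`, `B ≠ 0` such that all realisations of `A`
lie in degrees `≤ n` and all realisations of `B` in degrees `≥ n + 1`. -/
def Splits (X : T) : Prop :=
  ∃ (n : ℤ) (A B : T) (f : A ⟶ X) (g : X ⟶ B) (h : B ⟶ A⟦(1 : ℤ)⟧),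
    Triangle.mk f g h ∈ distTriang T ∧ Le R s n A ∧ Ge R s (n + 1) B ∧ ¬ IsZero A ∧ ¬ IsZero B

/-- The order of two successive concentrated pieces can be exchanged: an extension of an object
concentrated in degree `b` by one concentrated in a degree `a > b` is an extension of an object
concentrated in degree `a` by one concentrated in degree `b`. -/
def Exchange : Prop :=
  ∀ (a b : ℤ), b < a → ∀ (A E B : T) (f : A ⟶ E) (g : E ⟶ B) (h : B ⟶ A⟦(1 : ℤ)⟧),
    Triangle.mk f g h ∈ distTriang T → Conc R s a A → Conc R s b B →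
    ∃ (A' B' : T) (f' : B' ⟶ E) (g' : E ⟶ A') (h' : A' ⟶ B'⟦(1 : ℤ)⟧),
      Triangle.mk f' g' h' ∈ distTriang T ∧ Conc R s b B' ∧ Conc R s a A'

end real

/-- Iterated extensions, in any order, of objects satisfying `P`. -/
inductive IterExt (P : ObjectProperty T) : T → Prop
  | zero {X : T} (h : IsZero X) : IterExt P X
  | of {X : T} (h : P X) : IterExt P X
  | ext {X Y Z : T} {f : X ⟶ Y} {g : Y ⟶ Z} {h : Z ⟶ X⟦(1 : ℤ)⟧}
      (hT : Triangle.mk f g h ∈ distTriang T) (hX : IterExt P X) (hZ : IterExt P Z) : IterExt P Y

/-- The objects isomorphic to a shift of an object of the class `G`. -/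
def Shifts (G : ObjectProperty T) : ObjectProperty T :=
  fun X => ∃ (Y : T) (n : ℤ), G Y ∧ Nonempty (X ≅ Y⟦n⟧)

end Pool.Agent.TH26.MT
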