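import Pool.Agent.TH26.MT.Crit
import Mathlib.CategoryTheory.Idempotents.Basic

/-!
# Cuts of direct summands
-/

open CategoryTheory Limits Triangulated Pretriangulated ObjectProperty

universe v₁ v₂ u₁ u₂ w

namespace Pool.Agent.TH26.MT

open Pool.Agent.TH133.TT

set_option linter.all false

variable {T : Type u₁} [Category.{v₁} T] [Preadditive T] [HasZeroObject T] [HasShift T ℤ]
  [∀ n : ℤ, (shiftFunctor T n).Additive] [Pretriangulated T]

lemma le_of_retract (t : TStructure T) {X Y : T} {n : ℤ} (i : X ⟶ Y) (r : Y ⟶ X)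
    (h : i ≫ r = 𝟙 X) (hY : t.le n Y) : t.le n X :=
  le_of_hom t fun Z hZ f => by
    rw [← Category.id_comp f, ← h, Category.assoc, hom_zero t (r ≫ f) (by omega) hY hZ, comp_zero]

lemma ge_of_retract (t : TStructure T) {X Y : T} {n : ℤ} (i : X ⟶ Y) (r : Y ⟶ X)
    (h : i ≫ r = 𝟙 X) (hY : t.ge n Y) : t.ge n X :=
  ge_of_hom t fun Z hZ f => by
    rw [← Category.comp_id f, ← h, ← Category.assoc, hom_zero t (f ≫ i) (by omega) hZ hY,
      zero_comp]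

section real

variable {ι : Type w} {D : ι → Type u₂} [∀ i, Category.{v₂} (D i)] [∀ i, Preadditive (D i)]
  [∀ i, HasZeroObject (D i)] [∀ i, HasShift (D i) ℤ]
  [∀ i, ∀ n : ℤ, (shiftFunctor (D i) n).Additive] [∀ i, Pretriangulated (D i)]
  {R : ∀ i, T ⥤ D i} {s : ∀ i, TStructure (D i)}

lemma Le.retract {X Y : T} {n : ℤ} (i : X ⟶ Y) (r : Y ⟶ X) (h : i ≫ r = 𝟙 X)
    (hY : Le R s n Y) : Le R s n X :=
  fun j => le_of_retract (s j) ((R j).map i) ((R j).map r)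
    (by rw [← Functor.map_comp, h, CategoryTheory.Functor.map_id]) (hY j)

lemma Ge.retract {X Y : T} {n : ℤ} (i : X ⟶ Y) (r : Y ⟶ X) (h : i ≫ r = 𝟙 X)
    (hY : Ge R s n Y) : Ge R s n X :=
  fun j => ge_of_retract (s j) ((R j).map i) ((R j).map r)
    (by rw [← Functor.map_comp, h, CategoryTheory.Functor.map_id]) (hY j)

variable [∀ i, (R i).CommShift ℤ] [∀ i, (R i).IsTriangulated]

/-- In an idempotent complete category a direct summand of an object that can be cut can be cut, if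
there are no maps from `T^{≤0}` to `T^{≥1}`. -/
theorem cut_of_retract [IsIdempotentComplete T]
    (hv : ∀ (X Y : T) (f : X ⟶ Y), Le R s 0 X → Ge R s 1 Y → f = 0) {X N : T} (i : X ⟶ N)
    (r : N ⟶ X) (hir : i ≫ r = 𝟙 X) (hN : CutAt R s 0 N) : CutAt R s 0 X := by
  obtain ⟨A, B, a, b, c, hT, hA, hB⟩ := hN
  have hB1 : Ge R s 1 B := by simpa using hB
  have hB' : Ge R s 1 (B⟦(-1 : ℤ)⟧) := (hB1.shift (n' := 2) (by norm_num)).anti (by norm_num)
  -- maps to `N` from `T^{≤0}` factor uniquely through `A`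
  have huniq : ∀ (Z : T) (p q : Z ⟶ A), Le R s 0 Z → p ≫ a = q ≫ a → p = q := by
    intro Z p q hZ hpq
    have h0 : (p - q) ≫ a = 0 := by rw [Preadditive.sub_comp, hpq, sub_self]
    obtain ⟨k, hk⟩ := co2 (inv_rot_of_distTriang _ hT) (p - q) h0
    have hk0 : k = 0 := hv _ _ k hZ hB'
    rw [hk0, zero_comp] at hk
    exact sub_eq_zero.1 hk
  set e : N ⟶ N := r ≫ i with he
  have hee : e ≫ e = e := by
    rw [he, Category.assoc, reassoc_of% hir]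
  obtain ⟨eA, heA⟩ := co2 hT (a ≫ e) (by
    rw [hv _ _ (( a ≫ e) ≫ b) hA hB1])
  have hidem : eA ≫ eA = eA := by
    apply huniq _ _ _ hA
    rw [Category.assoc, ← heA, ← Category.assoc, ← heA, Category.assoc, hee]
  obtain ⟨A1, u, v, huv, hvu⟩ := IsIdempotentComplete.idempotents_split A eA hidem
  obtain ⟨Q, g, w, hT1⟩ := distinguished_cocone_triangle (u ≫ a ≫ r)
  have hA1 : Le R s 0 A1 := hA.retract u v huv
  have hu : (u ≫ a ≫ r) ≫ i = u ≫ a := by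
    have h1 : u ≫ eA = u := by rw [← hvu, reassoc_of% huv]
    calc (u ≫ a ≫ r) ≫ i = u ≫ (a ≫ e) := by rw [he]; simp
      _ = (u ≫ eA) ≫ a := by rw [heA, Category.assoc]
      _ = u ≫ a := by rw [h1]
  have hv' : v ≫ (u ≫ a ≫ r) = a ≫ r := by
    calc v ≫ (u ≫ a ≫ r) = (eA ≫ a) ≫ r := by rw [← hvu]; simp
      _ = (a ≫ e) ≫ r := by rw [← heA]
      _ = a ≫ r := by rw [he]; simp [hir]
  obtain ⟨(x : Q ⟶ B), (hx1 : g ≫ x = i ≫ b), (hx2 : w ≫ u⟦(1 : ℤ)⟧' = x ≫ c)⟩ :=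
    complete_distinguished_triangle_morphism _ _ hT1 hT u i hu
  obtain ⟨(y : B ⟶ Q), (hy1 : b ≫ y = r ≫ g), (hy2 : c ≫ v⟦(1 : ℤ)⟧' = y ≫ w)⟩ :=
    complete_distinguished_triangle_morphism _ _ hT hT1 v r hv'.symm
  have c1 : (u ≫ a ≫ r) ≫ 𝟙 X = 𝟙 A1 ≫ (u ≫ a ≫ r) := by
    rw [Category.comp_id, Category.id_comp]
  have c2 : g ≫ (x ≫ y) = 𝟙 X ≫ g := by
    rw [Category.id_comp, reassoc_of% hx1, hy1, reassoc_of% hir]
  have c3 : w ≫ (𝟙 A1)⟦(1 : ℤ)⟧' = (x ≫ y) ≫ w := by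
    rw [Category.assoc, ← hy2, ← reassoc_of% hx2, ← Functor.map_comp, huv]
  let φ : Triangle.mk (u ≫ a ≫ r) g w ⟶ Triangle.mk (u ≫ a ≫ r) g w :=
    Triangle.homMk _ _ (𝟙 A1) (𝟙 X) (x ≫ y) c1 c2 c3
  haveI : IsIso (x ≫ y) :=
    isIso₃_of_isIso₁₂ φ hT1 hT1 (inferInstanceAs (IsIso (𝟙 A1))) (inferInstanceAs (IsIso (𝟙 X)))
  refine ⟨A1, Q, _, g, w, hT1, hA1, hB.retract x (y ≫ inv (x ≫ y)) ?_⟩
  rw [← Category.assoc, IsIso.hom_inv_id]

end real

end Pool.Agent.TH26.MT
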